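import Pool.Agent.K4W.StmtsP

set_option autoImplicit false

namespace Pool.Agent.K4W.H19

open Pool.Agent.Helper69_Weyl MeasureTheory

theorem cont_ee : Continuous ee := by
  unfold ee
  fun_prop

theorem ga_bound (N : ℕ) (hN : 0 < N) (s : ℝ) :
    ga N (2 * s) * s ^ 2 ≤ (N : ℝ) ^ 2 / (2 * Real.pi) *
      Real.exp (-(2 * Real.pi / (N : ℝ) ^ 2) * s ^ 2) := by
  have hN' : (0 : ℝ) < (N : ℝ) := by exact_mod_cast hN
  have hpi := Real.pi_pos
  set x : ℝ := 2 * Real.pi / (N : ℝ) ^ 2 * s ^ 2 with hx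
  have h1 : ga N (2 * s) = Real.exp (-x) * Real.exp (-x) := by
    unfold ga
    rw [← Real.exp_add]
    congr 1
    rw [hx]
    field_simp
    ring
  have h2 : s ^ 2 = (N : ℝ) ^ 2 / (2 * Real.pi) * x := by
    rw [hx]
    field_simp
  have h3 : x * Real.exp (-x) ≤ 1 := by
    have := Real.add_one_le_exp x
    rw [Real.exp_neg]
    rw [mul_inv_le_iff₀ (Real.exp_pos x)]
    linarith
  have h4 : -(2 * Real.pi / (N : ℝ) ^ 2) * s ^ 2 = -x := by rw [hx]; ring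
  rw [h4, h1, h2]
  have h5 : (0 : ℝ) ≤ (N : ℝ) ^ 2 / (2 * Real.pi) := by positivity
  calc Real.exp (-x) * Real.exp (-x) * ((N : ℝ) ^ 2 / (2 * Real.pi) * x)
      = (N : ℝ) ^ 2 / (2 * Real.pi) * Real.exp (-x) * (x * Real.exp (-x)) := by ring
    _ ≤ (N : ℝ) ^ 2 / (2 * Real.pi) * Real.exp (-x) * 1 := by
        apply mul_le_mul_of_nonneg_left h3
        positivity
    _ = _ := by ring

theorem ga_int (N : ℕ) (hN : 0 < N) : Integrable (fun s : ℝ => ga N (2 * s)) := by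
  have hN' : (0 : ℝ) < (N : ℝ) := by exact_mod_cast hN
  have h := integrable_exp_neg_mul_sq (b := 4 * Real.pi / (N : ℝ) ^ 2) (by positivity)
  refine h.congr (Filter.Eventually.of_forall fun s => ?_)
  show Real.exp _ = ga N (2 * s)
  unfold ga
  congr 1
  field_simp
  ring

theorem ga_cont (N : ℕ) : Continuous (fun s : ℝ => ga N (2 * s)) := by
  unfold ga
  fun_prop

theorem F_int (N r : ℕ) (γ : ℝ) (m : ℤ) (hN : 0 < N) :
    Integrable (fun s : ℝ => (ga N (2 * s) : ℂ) *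
      (ee (γ * s ^ 2) * ee (-(s * (m : ℝ) / (r : ℝ))))) := by
  refine (ga_int N hN).mono' ?_ (Filter.Eventually.of_forall fun s => ?_)
  · apply Continuous.aestronglyMeasurable
    have h1 := cont_ee
    have h2 := ga_cont N
    have h3 : Continuous (fun s : ℝ => ((ga N (2 * s) : ℝ) : ℂ)) :=
      Complex.continuous_ofReal.comp h2
    have h4 : Continuous (fun s : ℝ => ee (γ * s ^ 2)) := h1.comp (by fun_prop)
    have h5 : Continuous (fun s : ℝ => ee (-(s * (m : ℝ) / (r : ℝ)))) := h1.comp (by fun_prop)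
    exact h3.mul (h4.mul h5)
  · rw [norm_mul, norm_mul, norm_ee, norm_ee, Complex.norm_real, mul_one, mul_one,
      Real.norm_of_nonneg (by unfold ga; positivity)]

theorem lip (fou : FouStmt) : LipStmt := by
  intro N r γ γ' m hN hr
  have hN' : (0 : ℝ) < (N : ℝ) := by exact_mod_cast hN
  have hr' : (0 : ℝ) < (r : ℝ) := by exact_mod_cast hr
  have hpi := Real.pi_pos
  rw [fou N r γ m hN hr, fou N r γ' m hN hr, ← mul_sub,
    ← integral_sub (F_int N r γ m hN) (F_int N r γ' m hN), norm_mul]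
  set K : ℝ := |γ - γ'| with hK
  have hK0 : 0 ≤ K := abs_nonneg _
  have hb : ‖∫ s : ℝ, ((ga N (2 * s) : ℂ) * (ee (γ * s ^ 2) * ee (-(s * (m : ℝ) / (r : ℝ)))) -
      (ga N (2 * s) : ℂ) * (ee (γ' * s ^ 2) * ee (-(s * (m : ℝ) / (r : ℝ)))))‖ ≤
      ∫ s : ℝ, (2 * Real.pi * K * ((N : ℝ) ^ 2 / (2 * Real.pi))) *
        Real.exp (-(2 * Real.pi / (N : ℝ) ^ 2) * s ^ 2) := by
    refine norm_integral_le_of_norm_le ?_ (Filter.Eventually.of_forall fun s => ?_)
    · exact (integrable_exp_neg_mul_sq (by positivity)).const_mul _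
    · have e1 : (ga N (2 * s) : ℂ) * (ee (γ * s ^ 2) * ee (-(s * (m : ℝ) / (r : ℝ)))) -
          (ga N (2 * s) : ℂ) * (ee (γ' * s ^ 2) * ee (-(s * (m : ℝ) / (r : ℝ)))) =
          (ga N (2 * s) : ℂ) * ((ee (γ * s ^ 2) - ee (γ' * s ^ 2)) *
            ee (-(s * (m : ℝ) / (r : ℝ)))) := by ring
      rw [e1, norm_mul, norm_mul, norm_ee, mul_one, Complex.norm_real,
        Real.norm_of_nonneg (by unfold ga; positivity)]
      have e2 := norm_ee_sub_le (γ * s ^ 2) (γ' * s ^ 2)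
      have e3 : |γ * s ^ 2 - γ' * s ^ 2| = K * s ^ 2 := by
        rw [← sub_mul, abs_mul, abs_of_nonneg (sq_nonneg s)]
      rw [e3] at e2
      have e4 := ga_bound N hN s
      have e5 : 0 ≤ ga N (2 * s) := by unfold ga; positivity
      calc ga N (2 * s) * ‖ee (γ * s ^ 2) - ee (γ' * s ^ 2)‖
          ≤ ga N (2 * s) * (2 * Real.pi * (K * s ^ 2)) := mul_le_mul_of_nonneg_left e2 e5
        _ = 2 * Real.pi * K * (ga N (2 * s) * s ^ 2) := by ring
        _ ≤ 2 * Real.pi * K * ((N : ℝ) ^ 2 / (2 * Real.pi) *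
            Real.exp (-(2 * Real.pi / (N : ℝ) ^ 2) * s ^ 2)) := by
            apply mul_le_mul_of_nonneg_left e4
            positivity
        _ = _ := by ring
  have hI : ∫ s : ℝ, (2 * Real.pi * K * ((N : ℝ) ^ 2 / (2 * Real.pi))) *
        Real.exp (-(2 * Real.pi / (N : ℝ) ^ 2) * s ^ 2) ≤ K * (N : ℝ) ^ 3 := by
    rw [integral_const_mul, integral_gaussian]
    have e1 : Real.pi / (2 * Real.pi / (N : ℝ) ^ 2) ≤ (N : ℝ) ^ 2 := by
      have : Real.pi / (2 * Real.pi / (N : ℝ) ^ 2) = (N : ℝ) ^ 2 / 2 := by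
        field_simp
      rw [this]
      nlinarith [sq_nonneg (N : ℝ)]
    have e2 : Real.sqrt (Real.pi / (2 * Real.pi / (N : ℝ) ^ 2)) ≤ (N : ℝ) := by
      calc _ ≤ Real.sqrt ((N : ℝ) ^ 2) := Real.sqrt_le_sqrt e1
        _ = N := Real.sqrt_sq hN'.le
    have e3 : 2 * Real.pi * K * ((N : ℝ) ^ 2 / (2 * Real.pi)) = K * (N : ℝ) ^ 2 := by
      field_simp
    rw [e3]
    calc K * (N : ℝ) ^ 2 * Real.sqrt (Real.pi / (2 * Real.pi / (N : ℝ) ^ 2))
        ≤ K * (N : ℝ) ^ 2 * N := mul_le_mul_of_nonneg_left e2 (by positivity)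
      _ = K * (N : ℝ) ^ 3 := by ring
  have hr2 : ‖(((r : ℝ) ^ (-(1 / 2) : ℝ) : ℝ) : ℂ)‖ = (Real.sqrt (r : ℝ))⁻¹ := by
    rw [Complex.norm_real, Real.norm_of_nonneg (by positivity), Real.rpow_neg hr'.le,
      Real.sqrt_eq_rpow]
  rw [hr2]
  calc (Real.sqrt (r : ℝ))⁻¹ * _ ≤ (Real.sqrt (r : ℝ))⁻¹ * (K * (N : ℝ) ^ 3) :=
        mul_le_mul_of_nonneg_left (hb.trans hI) (by positivity)
    _ = K * (N : ℝ) ^ 3 / Real.sqrt (r : ℝ) := by rw [div_eq_mul_inv, mul_comm]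

end Pool.Agent.K4W.H19
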