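import Pool.Agent.K4W.StmtsF

set_option autoImplicit false

open scoped Classical

namespace Pool.Agent.K4W.H19

open Pool.Agent.Helper69_Weyl (ee W)
open Pool.Agent.VM (Nr)

/-- the values `H` in the cell with centre `c` -/
noncomputable def cel (Z : ℕ) (t c : ℝ) : Finset ℤ :=
  (Hs (Xz Z)).filter (fun H => Nr (48 * t * (H : ℝ) - c) (1 / (Z : ℝ) ^ 130216))

/-- the centre -/
noncomputable def cen (Z : ℕ) (x : ℕ × ℤ × (ℕ → ℂ) × ℕ) : ℝ :=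
  (bb x.1 x.2.2.2 : ℝ) / (x.1 : ℝ) + (x.2.1 : ℝ) / (Z : ℝ) ^ 130216

theorem exc (h1 : Cl1Stmt) (h2 : Cl2Stmt) (h3 : ChcStmt) (h4 : BcdStmt) (h5 : CovStmt) :
    ExcStmt := by
  obtain ⟨z1, h1⟩ := h1
  obtain ⟨z2, h2⟩ := h2
  obtain ⟨z3, h3⟩ := h3
  obtain ⟨z4, h4⟩ := h4
  obtain ⟨z5, h5⟩ := h5
  refine ⟨z1 + z2 + z3 + z4 + z5 + 1, ?_⟩
  intro Z hZ
  have w1 : z1 ≤ Z := by omega
  have w2 : z2 ≤ Z := by omega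
  have w3 : z3 ≤ Z := by omega
  have w4 : z4 ≤ Z := by omega
  have w5 : z5 ≤ Z := by omega
  have w6 : 1 ≤ Z := by omega
  clear hZ
  intro N Q a t S Ψ hB hS hΨ hc
  have hSz : Sz Z N := ⟨hB.1, hB.2.1⟩
  obtain ⟨B, hBc, hBm⟩ := h4 Z w4 N S Ψ hSz hS hΨ hc
  have k1 := h1 Z w1 N Q a t hB
  have k2 := h2 Z w2 N Q a t hB
  have k3 : ∀ c : ℝ, ((cel Z t c).card : ℝ) ≤ (Z : ℝ) ^ 15104 := fun c => h3 Z w3 N Q a t c hB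
  have hZ1 : (1 : ℝ) ≤ (Z : ℝ) := by
    exact_mod_cast w6
  set C1 := (Hs (Xz Z)).filter (fun H : ℤ => ∃ r : ℕ, 1 ≤ r ∧ r * Z ^ 84 ≤ N ∧
      Nr (48 * t * (H : ℝ) * (r : ℝ)) (1 / ((Z : ℝ) ^ 84 * (N : ℝ)))) with hC1
  set C2 := (Hs (Xz Z)).filter (fun H : ℤ => ∃ r : ℕ, 1 ≤ r ∧ r ≤ 2 * N * Z ^ 84 ∧
      Nr (48 * t * (H : ℝ) * (r : ℝ)) ((Z : ℝ) ^ 170 / ((Z : ℝ) ^ 1000 * (N : ℝ)))) with hC2
  have hsub : (Hs (Xz Z)).filter (fun H : ℤ => ∃ ψ ∈ Ψ, (S.card : ℝ) * (Z : ℝ) ^ 31920 <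
      ‖∑ μ ∈ S, ψ μ * th N (48 * t * (μ : ℝ) * (H : ℝ))‖) ⊆ (C1 ∪ C2) ∪ B.biUnion (fun x => cel Z t (cen Z x)) := by
    intro H hH
    rw [Finset.mem_filter] at hH
    obtain ⟨hHs, ψ, hψ, hbig⟩ := hH
    by_cases c1 : ∃ r : ℕ, 1 ≤ r ∧ r * Z ^ 84 ≤ N ∧
      Nr (48 * t * (H : ℝ) * (r : ℝ)) (1 / ((Z : ℝ) ^ 84 * (N : ℝ)))
    · apply Finset.mem_union_left
      apply Finset.mem_union_left
      rw [hC1, Finset.mem_filter]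
      exact ⟨hHs, c1⟩
    by_cases c2 : ∃ r : ℕ, 1 ≤ r ∧ r ≤ 2 * N * Z ^ 84 ∧
      Nr (48 * t * (H : ℝ) * (r : ℝ)) ((Z : ℝ) ^ 170 / ((Z : ℝ) ^ 1000 * (N : ℝ)))
    · apply Finset.mem_union_left
      apply Finset.mem_union_right
      rw [hC2, Finset.mem_filter]
      exact ⟨hHs, c2⟩
    apply Finset.mem_union_right
    obtain ⟨x, hx, hx2⟩ := h5 Z w5 N t S Ψ B H ψ hSz hS hΨ hBm c1 c2 hψ hbig
    rw [Finset.mem_biUnion]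
    refine ⟨x, hx, ?_⟩
    exact Finset.mem_filter.mpr ⟨hHs, hx2⟩
  have hcard := Finset.card_le_card hsub
  have hc2 : ((C1 ∪ C2) ∪ B.biUnion (fun x => cel Z t (cen Z x))).card ≤ C1.card + C2.card + ∑ x ∈ B, (cel Z t (cen Z x)).card :=
    (Finset.card_union_le _ _).trans
      (Nat.add_le_add (Finset.card_union_le _ _) Finset.card_biUnion_le)
  have hc3 : (((Hs (Xz Z)).filter (fun H : ℤ => ∃ ψ ∈ Ψ, (S.card : ℝ) * (Z : ℝ) ^ 31920 <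
      ‖∑ μ ∈ S, ψ μ * th N (48 * t * (μ : ℝ) * (H : ℝ))‖)).card : ℝ) ≤
      (C1.card : ℝ) + (C2.card : ℝ) + ∑ x ∈ B, ((cel Z t (cen Z x)).card : ℝ) := by
    have h := (Nat.cast_le (α := ℝ)).mpr (hcard.trans hc2)
    rw [Nat.cast_add, Nat.cast_add, Nat.cast_sum] at h
    exact h
  have hc4 : ∑ x ∈ B, ((cel Z t (cen Z x)).card : ℝ) ≤ (Z : ℝ) ^ 111520 * (Z : ℝ) ^ 15104 := by
    calc ∑ x ∈ B, ((cel Z t (cen Z x)).card : ℝ) ≤ ∑ _x ∈ B, (Z : ℝ) ^ 15104 :=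
          Finset.sum_le_sum fun x _ => k3 (cen Z x)
      _ = (B.card : ℝ) * (Z : ℝ) ^ 15104 := by rw [Finset.sum_const, nsmul_eq_mul]
      _ ≤ _ := mul_le_mul_of_nonneg_right hBc (by positivity)
  have hX : (Xz Z : ℝ) = 8 * (Z : ℝ) ^ 127002 := by
    unfold Xz
    rw [Nat.cast_mul, Nat.cast_pow, Nat.cast_ofNat]
  have hc5 : (Z : ℝ) ^ 111520 * (Z : ℝ) ^ 15104 * (Z : ℝ) ^ 164 ≤ (Z : ℝ) ^ 127002 := by
    rw [← pow_add, ← pow_add]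
    exact pow_le_pow_right₀ hZ1 (by norm_num)
  have hp : (0 : ℝ) ≤ (Z : ℝ) ^ 164 := by positivity
  have hq : (0 : ℝ) ≤ (Z : ℝ) ^ 127002 := by positivity
  rw [hX] at k1 k2 ⊢
  have e1 := mul_le_mul_of_nonneg_right (hc3.trans (add_le_add le_rfl hc4)) hp
  refine e1.trans ?_
  have e2 : ((C1.card : ℝ) + (C2.card : ℝ) + (Z : ℝ) ^ 111520 * (Z : ℝ) ^ 15104) *
      (Z : ℝ) ^ 164 = (C1.card : ℝ) * (3 * (Z : ℝ) ^ 164) / 3 +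
        (C2.card : ℝ) * (3 * (Z : ℝ) ^ 164) / 3 +
        (Z : ℝ) ^ 111520 * (Z : ℝ) ^ 15104 * (Z : ℝ) ^ 164 := by
    generalize (Z : ℝ) ^ 111520 = u
    generalize (Z : ℝ) ^ 15104 = v
    generalize (Z : ℝ) ^ 164 = w
    ring
  rw [e2]
  generalize (Z : ℝ) ^ 111520 * (Z : ℝ) ^ 15104 * (Z : ℝ) ^ 164 = u at *
  generalize (Z : ℝ) ^ 127002 = v at *
  linarith

end Pool.Agent.K4W.H19
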