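import Pool.Agent.K4W.StmtsW

set_option autoImplicit false

open Polynomial

namespace Pool.Agent.K4W.H19

theorem wrt (wmn : WmnStmt) : WrtStmt := by
  classical
  intro p _ K _ _ _ r e hr hr1 he P hP
  obtain ⟨hmon, hirr⟩ := Finset.mem_filter.mp hP
  obtain ⟨hm, hdeg⟩ := (wmn p e P).mp hmon
  have hcard : Fintype.card K = p ^ r := by
    have := Module.card_eq_pow_finrank (K := ZMod p) (V := K)
    rw [ZMod.card, hr] at this
    exact this
  have hNat : Nat.card (ZMod p) = p := Nat.card_zmod p
  have hdvd : P ∣ X ^ (Nat.card (ZMod p)) ^ r - X :=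
    hirr.natDegree_dvd_iff_dvd_X_pow_card_pow_sub_X.mp (by rw [hdeg]; exact he)
  rw [hNat] at hdvd
  have hQ : P.map (algebraMap (ZMod p) K) ∣ X ^ Fintype.card K - X := by
    have h := Polynomial.map_dvd (algebraMap (ZMod p) K) hdvd
    rw [Polynomial.map_sub, Polynomial.map_pow, Polynomial.map_X] at h
    rw [hcard]
    exact h
  have hne : (X ^ Fintype.card K - X : K[X]) ≠ 0 :=
    FiniteField.X_pow_card_sub_X_ne_zero K Fintype.one_lt_card
  have hroots := FiniteField.roots_X_pow_card_sub_X K
  have hbig : Splits (X ^ Fintype.card K - X : K[X]) := by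
    rw [splits_iff_card_roots, hroots,
      FiniteField.X_pow_card_sub_X_natDegree_eq K Fintype.one_lt_card]
    rfl
  have hQs : Splits (P.map (algebraMap (ZMod p) K)) := hbig.of_dvd hne hQ
  have hQ0 : P.map (algebraMap (ZMod p) K) ≠ 0 := (hm.map _).ne_zero
  have hQcard : (P.map (algebraMap (ZMod p) K)).roots.card = e := by
    rw [splits_iff_card_roots.mp hQs, natDegree_map, hdeg]
  have hle := Polynomial.roots.le_of_dvd hne hQ
  have hnodup : (P.map (algebraMap (ZMod p) K)).roots.Nodup :=
    Multiset.nodup_of_le hle (by rw [hroots]; exact Finset.univ.nodup)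
  rw [← hQcard, ← Multiset.toFinset_card_of_nodup hnodup]
  congr 1
  ext x
  rw [Finset.mem_filter, Multiset.mem_toFinset, mem_roots hQ0, IsRoot.def, eval_map_algebraMap]
  constructor
  · rintro ⟨_, h⟩
    rw [← h]
    exact minpoly.aeval _ _
  · intro h
    exact ⟨Finset.mem_univ _, (minpoly.eq_of_irreducible_of_monic hirr h hm).symm⟩

end Pool.Agent.K4W.H19
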